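import Pool.Agent.V1122.Nielsen.UG

set_option autoImplicit false

namespace V1122.Nielsen
open UG RegularWreathProduct

lemma infinite_of_actions {A : Type} [Group A] (r : A)
    (H : ∀ q : ℕ, q.Prime → 2 < q → ∃ (B : Type) (_ : Group B) (_ : Finite B) (φ : A →* B),
      φ r = 1 ∧ ∃ p : A, q ∣ orderOf (φ p)) :
    Set.Infinite {N : Subgroup (A ⧸ Subgroup.normalClosure ({r} : Set A)) |
      N.Normal ∧ N.FiniteIndex} := by
  intro hfin
  obtain ⟨M, hM⟩ := (hfin.image (fun N => N.index)).bddAbove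
  obtain ⟨q, hqM, hq⟩ := Nat.exists_infinite_primes (M + 3)
  obtain ⟨B, _, _, φ, hr, p, hp⟩ := H q hq (by omega)
  have hle : Subgroup.normalClosure ({r} : Set A) ≤ φ.ker := by
    apply Subgroup.normalClosure_le_normal
    intro x hx
    rw [Set.mem_singleton_iff] at hx
    subst hx
    exact hr
  let φ' : A ⧸ Subgroup.normalClosure ({r} : Set A) →* B := QuotientGroup.lift _ φ hle
  have hN : φ'.ker.index ≤ M := by
    apply hM
    refine ⟨φ'.ker, ⟨inferInstance, Subgroup.finiteIndex_ker φ'⟩, rfl⟩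
  have h1 : φ'.ker.index = Nat.card φ'.range := Subgroup.index_ker φ'
  have h2 : orderOf (φ p) ∣ Nat.card φ'.range :=
    Subgroup.orderOf_dvd_natCard φ'.range ⟨QuotientGroup.mk p, rfl⟩
  have h3 : q ≤ Nat.card φ'.range := Nat.le_of_dvd Nat.card_pos (hp.trans h2)
  omega

section
variable (q : ℕ) (K : Type) [Field K]

/-- the wreath product in which everything happens. -/
abbrev W := (Multiplicative (ZMod q)) ≀ᵣ (UG K)

variable {q K}

/-- The subgroup of the wreath product: superdiagonal `(t,t,t,t⁴)`, odd functions. -/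
def P (h2 : (2 : K) = 0) : Subgroup (W q K) where
  carrier := {x | x.right.s = x.right.t ^ 4 ∧ ∀ h, x.left (z * h) = (x.left h)⁻¹}
  one_mem' := by simp
  mul_mem' := by
    rintro x y ⟨hx, hx'⟩ ⟨hy, hy'⟩
    refine ⟨?_, ?_⟩
    · simp only [mul_right, mul_s, mul_t, hx, hy]
      linear_combination (-(2 * x.right.t ^ 3 * y.right.t + 3 * x.right.t ^ 2 * y.right.t ^ 2
        + 2 * x.right.t * y.right.t ^ 3)) * h2
    · intro h
      have : x.right⁻¹ * (z * h) = z * (x.right⁻¹ * h) := by
        rw [← mul_assoc, ← z_comm, mul_assoc]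
      simp only [mul_left, Pi.mul_apply, hx', this, hy', mul_inv]
  inv_mem' := by
    rintro x ⟨hx, hx'⟩
    refine ⟨?_, ?_⟩
    · simp only [inv_right, inv_s, inv_t, hx]
      linear_combination (-x.right.t ^ 4) * h2
    · intro h
      have : x.right * (z * h) = z * (x.right * h) := by
        rw [← mul_assoc, ← z_comm, mul_assoc]
      simp only [inv_left, Pi.inv_apply, this, hx']

lemma P_pow_eight (h2 : (2 : K) = 0) (x : W q K) (hx : x ∈ P h2) (h7 : x.right.t ^ 7 = 1) :
    x ^ 8 = 1 := by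
  have h4 : (x ^ 4).right = z := by
    have : (x ^ 4).right = x.right ^ 4 := by
      simpa using map_pow (rightHom : W q K →* UG K) x 4
    rw [this]
    apply pow_four h2
    rw [hx.1]
    linear_combination h7
  have hP : x ^ 4 ∈ P h2 := Subgroup.pow_mem _ hx 4
  have : x ^ 8 = x ^ 4 * x ^ 4 := by rw [← pow_add]
  rw [this]
  apply RegularWreathProduct.ext
  · funext h
    simp only [mul_left, Pi.mul_apply, h4, z_inv h2, hP.2, one_left, Pi.one_apply, mul_inv_cancel]
  · simp only [mul_right, h4, z_mul_z h2, one_right]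

variable (q K) in
/-- The finite set on which `Aut(F₃)` acts. -/
def X (h2 : (2 : K) = 0) : Type :=
  {f : FreeGroup (Fin 3) →* (P h2 : Subgroup (W q K)) //
    Function.Surjective (fun x => (f x).1.right.t)}

instance (h2 : (2 : K) = 0) [Finite K] [NeZero q] : Finite (X q K h2) := by
  have : Finite (FreeGroup (Fin 3) →* (P h2 : Subgroup (W q K))) :=
    Finite.of_equiv _ (FreeGroup.lift (α := Fin 3) (β := (P h2 : Subgroup (W q K))))
  exact Subtype.finite

instance (h2 : (2 : K) = 0) : MulAction (MulAut (FreeGroup (Fin 3))) (X q K h2) where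
  smul α f := ⟨f.1.comp (α⁻¹ : MulAut (FreeGroup (Fin 3))).toMonoidHom,
    f.2.comp (α⁻¹ : MulAut (FreeGroup (Fin 3))).surjective⟩
  one_smul f := by
    apply Subtype.ext
    ext1 x
    rfl
  mul_smul α β f := by
    apply Subtype.ext
    ext1 x
    change f.1 ((α * β)⁻¹ (FreeGroup.of x)) = f.1 (β⁻¹ (α⁻¹ (FreeGroup.of x)))
    rw [mul_inv_rev]
    rfl

lemma smul_val (h2 : (2 : K) = 0) (α : MulAut (FreeGroup (Fin 3))) (f : X q K h2)
    (x : FreeGroup (Fin 3)) : (α • f).1 x = f.1 (α⁻¹ x) := rfl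

lemma t_ne (h2 : (2 : K) = 0) (hc : 4 < Nat.card K) (F : FreeGroup (Fin 3) →* Multiplicative K)
    (hF : Function.Surjective F) : F (FreeGroup.of 1) ≠ 1 := by
  intro h1
  set a := F (FreeGroup.of 0) with ha
  set b := F (FreeGroup.of 2) with hb
  have hsq : ∀ x : Multiplicative K, x * x = 1 := by
    intro x
    apply Multiplicative.toAdd.injective
    rw [toAdd_mul, toAdd_one]
    linear_combination (Multiplicative.toAdd x) * h2
  have hinv : ∀ x : Multiplicative K, x⁻¹ = x := fun x => inv_eq_of_mul_eq_one_left (hsq x)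
  let g : Bool × Bool → Multiplicative K := fun p =>
    (if p.1 then a else 1) * (if p.2 then b else 1)
  have key : ∀ x, ∃ p, g p = F x := by
    intro x
    induction x using FreeGroup.induction_on with
    | C1 => exact ⟨(false, false), by simp [g]⟩
    | of i =>
      fin_cases i
      · exact ⟨(true, false), by simp [g, ha]⟩
      · exact ⟨(false, false), by simp [g]; exact h1.symm⟩
      · exact ⟨(false, true), by simp [g, hb]⟩
    | inv_of i ih =>
      obtain ⟨p, hp⟩ := ih
      exact ⟨p, by rw [hp, map_inv, hinv]⟩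
    | mul x y hx hy =>
      obtain ⟨⟨p1, p2⟩, hp⟩ := hx
      obtain ⟨⟨r1, r2⟩, hr⟩ := hy
      refine ⟨(xor p1 r1, xor p2 r2), ?_⟩
      rw [map_mul, ← hp, ← hr]
      have hx : ∀ (c : Multiplicative K) (p r : Bool),
          (if xor p r then c else 1) = (if p then c else 1) * (if r then c else 1) := by
        intro c p r
        cases p <;> cases r <;> simp [hsq c]
      change (if xor p1 r1 then a else 1) * (if xor p2 r2 then b else 1) =
        ((if p1 then a else 1) * (if p2 then b else 1)) *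
          ((if r1 then a else 1) * (if r2 then b else 1))
      rw [hx, hx, mul_mul_mul_comm]
  have hsurj : Function.Surjective g := by
    intro y
    obtain ⟨x, rfl⟩ := hF y
    exact key x
  have := Nat.card_le_card_of_surjective g hsurj
  have h4 : Nat.card (Bool × Bool) = 4 := by simp
  have h5 : Nat.card (Multiplicative K) = Nat.card K := rfl
  omega

/-- the endomorphism `a₀ ↦ a₁ a₀`. -/
def sigF : FreeGroup (Fin 3) →* FreeGroup (Fin 3) :=
  FreeGroup.lift (fun k : Fin 3 => if k = 0 then FreeGroup.of 1 * FreeGroup.of 0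
      else FreeGroup.of k)

/-- the endomorphism `a₀ ↦ a₁⁻¹ a₀`. -/
def sigB : FreeGroup (Fin 3) →* FreeGroup (Fin 3) :=
  FreeGroup.lift (fun k : Fin 3 => if k = 0 then (FreeGroup.of 1)⁻¹ * FreeGroup.of 0
      else FreeGroup.of k)

/-- The Nielsen move `a₀ ↦ a₁ a₀`. -/
def sig : MulAut (FreeGroup (Fin 3)) :=
  MonoidHom.toMulEquiv sigF sigB
    (by ext k; fin_cases k <;> simp [sigF, sigB])
    (by ext k; fin_cases k <;> simp [sigF, sigB])

lemma sig_zero : sig (FreeGroup.of 0) = FreeGroup.of 1 * FreeGroup.of 0 := by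
  have h : sig (FreeGroup.of 0) = sigF (FreeGroup.of 0) := rfl
  rw [h]
  simp [sigF]

lemma sig_ne (k : Fin 3) (hk : k ≠ 0) : sig (FreeGroup.of k) = FreeGroup.of k := by
  have h : sig (FreeGroup.of k) = sigF (FreeGroup.of k) := rfl
  rw [h]
  simp [sigF, hk]

lemma sig_pow_ne (n : ℕ) (k : Fin 3) (hk : k ≠ 0) :
    (sig ^ n) (FreeGroup.of k) = FreeGroup.of k := by
  induction n with
  | zero => simp
  | succ n ih => rw [pow_succ, MulAut.mul_apply, sig_ne k hk, ih]

lemma sig_pow_zero (n : ℕ) :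
    (sig ^ n) (FreeGroup.of 0) = (FreeGroup.of 1) ^ n * FreeGroup.of 0 := by
  induction n with
  | zero => simp
  | succ n ih =>
    rw [pow_succ, MulAut.mul_apply, sig_zero, map_mul, ih, sig_pow_ne n 1 (by decide),
      ← mul_assoc, ← pow_succ']

lemma sig_pow_eight_smul (h2 : (2 : K) = 0) (hc : Nat.card K = 8) (f : X q K h2) :
    (sig ^ 8) • f = f := by
  have hfin : Finite K := Nat.finite_of_card_ne_zero (by omega)
  have : Fintype K := Fintype.ofFinite K
  have hsurj := f.2
  have ht : (f.1 (FreeGroup.of 1)).1.right.t ≠ 0 := by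
    let F : FreeGroup (Fin 3) →* Multiplicative K :=
      ((UG.tHom.comp (rightHom : W q K →* UG K)).comp (P h2).subtype).comp f.1
    have hF : Function.Surjective F := by
      intro y
      obtain ⟨x, hx⟩ := hsurj (Multiplicative.toAdd y)
      exact ⟨x, congrArg Multiplicative.ofAdd hx⟩
    intro h
    apply t_ne h2 (by omega) F hF
    exact congrArg Multiplicative.ofAdd h
  have h7 : (f.1 (FreeGroup.of 1)).1.right.t ^ 7 = 1 := by
    have := FiniteField.pow_card_sub_one_eq_one _ ht
    rwa [← Nat.card_eq_fintype_card, hc] at this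
  have h8 : f.1 (FreeGroup.of 1) ^ 8 = 1 := by
    apply Subtype.ext
    exact P_pow_eight h2 _ (f.1 (FreeGroup.of 1)).2 h7
  have key : f.1.comp (sig ^ 8 : MulAut (FreeGroup (Fin 3))).toMonoidHom = f.1 := by
    apply FreeGroup.ext_hom
    intro k
    change f.1 ((sig ^ 8) (FreeGroup.of k)) = _
    by_cases hk : k = 0
    · subst hk
      rw [sig_pow_zero, map_mul, map_pow, h8, one_mul]
    · rw [sig_pow_ne 8 k hk]
  have : (sig ^ 8)⁻¹ • f = f := by
    apply Subtype.ext
    apply MonoidHom.ext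
    intro x
    rw [smul_val, inv_inv]
    exact DFunLike.congr_fun key x
  rw [inv_smul_eq_iff] at this
  exact this.symm

/-- The odd function `δ₁ - δ_z`. -/
noncomputable def u : UG K → Multiplicative (ZMod q) := by
  classical
  exact fun h => if h = 1 then Multiplicative.ofAdd 1 else if h = z then
    (Multiplicative.ofAdd 1)⁻¹ else 1

lemma z_ne_one : (z : UG K) ≠ 1 := by
  intro h
  have := congrArg UG.d h
  simp at this

lemma u_odd (h2 : (2 : K) = 0) (h : UG K) : (u (z * h) : Multiplicative (ZMod q)) = (u h)⁻¹ := by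
  classical
  unfold u
  have hzz : (z : UG K) * z = 1 := z_mul_z h2
  by_cases h1 : h = 1
  · subst h1
    simp [z_ne_one]
  · by_cases hz : h = z
    · subst hz
      simp [hzz, z_ne_one]
    · have h3 : z * h ≠ 1 := by
        intro h'
        apply hz
        rw [← z_inv h2]
        exact (inv_eq_of_mul_eq_one_right h').symm
      have h4 : z * h ≠ z := by
        intro h'
        exact h1 (by simpa using h')
      simp [h1, hz, h3, h4]

lemma u_one : (u (1 : UG K) : Multiplicative (ZMod q)) = Multiplicative.ofAdd 1 := by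
  simp [u]

lemma u_eq_one (h : UG K) (h1 : h ≠ 1) (h2 : h ≠ z) : (u h : Multiplicative (ZMod q)) = 1 := by
  simp [u, h1, h2]

/-- the images of the generators. -/
noncomputable def gen (t : Fin 3 → K) (i : Fin 3) : W q K :=
  ⟨if i = 0 then u else 1, ⟨t i, t i ^ 4, 0, 0, 0, 0, 0, 0⟩⟩

lemma gen_mem (h2 : (2 : K) = 0) (t : Fin 3 → K) (i : Fin 3) : (gen t i : W q K) ∈ P h2 := by
  refine ⟨rfl, ?_⟩
  intro h
  unfold gen
  by_cases hi : i = 0
  · simp [hi, u_odd h2]
  · simp [hi]

/-- the base homomorphism. -/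
noncomputable def f₀ (h2 : (2 : K) = 0) (t : Fin 3 → K) :
    FreeGroup (Fin 3) →* (P h2 : Subgroup (W q K)) :=
  FreeGroup.lift (fun i => ⟨gen t i, gen_mem h2 t i⟩)

lemma f₀_of (h2 : (2 : K) = 0) (t : Fin 3 → K) (i : Fin 3) :
    ((f₀ h2 t (FreeGroup.of i)).1 : W q K) = gen t i := by
  simp [f₀]

lemma left_comm (a b : W q K) (hb : b.left = 1) (h : UG K) :
    (a * b * a⁻¹ * b⁻¹).left h =
      a.left h * (a.left (a.right * b.right⁻¹ * a.right⁻¹ * h))⁻¹ := by
  simp [hb, mul_assoc]

lemma pow_left_of_right_one (x : W q K) (hx : x.right = 1) (n : ℕ) :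
    x ^ n = ⟨fun h => (x.left h) ^ n, 1⟩ := by
  induction n with
  | zero => rw [pow_zero]; apply RegularWreathProduct.ext <;> simp; rfl
  | succ n ih =>
    rw [pow_succ, ih]
    apply RegularWreathProduct.ext
    · funext h
      simp [pow_succ]
    · simp [hx]

/-- The word `[a₀,a₁]²`. -/
def wd : FreeGroup (Fin 3) :=
  (FreeGroup.of 0 * FreeGroup.of 1 * (FreeGroup.of 0)⁻¹ * (FreeGroup.of 1)⁻¹) *
  (FreeGroup.of 0 * FreeGroup.of 1 * (FreeGroup.of 0)⁻¹ * (FreeGroup.of 1)⁻¹)

lemma wd_facts (h2 : (2 : K) = 0) (t : Fin 3 → K) (h1 : t 1 ≠ 0)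
    (h01 : t 0 * t 1 ^ 4 - t 1 * t 0 ^ 4 ≠ 0) :
    ((f₀ h2 t wd).1 : W q K).right = 1 ∧
      ((f₀ h2 t wd).1 : W q K).left 1 = Multiplicative.ofAdd 1 := by
  set a : W q K := gen t 0 with ha
  set b : W q K := gen t 1 with hb
  set c : W q K := a * b * a⁻¹ * b⁻¹ with hc
  have hw : ((f₀ h2 t wd).1 : W q K) = c * c := by
    simp only [wd, map_mul, map_inv, Subgroup.coe_mul, Subgroup.coe_inv, f₀_of]
    rfl
  have hcr : c.right = a.right * b.right * a.right⁻¹ * b.right⁻¹ := by simp [hc]
  have har : a.right = ⟨t 0, t 0 ^ 4, 0, 0, 0, 0, 0, 0⟩ := rfl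
  have hbr : b.right = ⟨t 1, t 1 ^ 4, 0, 0, 0, 0, 0, 0⟩ := rfl
  obtain ⟨f1, -, -, f4, f5⟩ := UG.comm_facts h2 (t 0) (t 0 ^ 4) (t 1) (t 1 ^ 4)
  rw [← har, ← hbr, ← hcr] at f1 f4 f5
  have hcg : c.right.g ≠ 0 := by rw [f4]; exact h01
  have hc1 : c.right ≠ 1 := by
    intro h; apply hcg; rw [h]; rfl
  have hcz : c.right ≠ z := by
    intro h; apply hcg; rw [h]; rfl
  have hcinv : c.right⁻¹ = c.right := inv_eq_of_mul_eq_one_left f5
  have hbl : b.left = 1 := by simp [hb, gen]
  have hal : a.left = u := by simp [ha, gen]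
  have hcl : ∀ h, c.left h = a.left h * (a.left (a.right * b.right⁻¹ * a.right⁻¹ * h))⁻¹ :=
    fun h => left_comm a b hbl h
  have htne : ∀ h : UG K, h.t ≠ 0 → (u h : Multiplicative (ZMod q)) = 1 := by
    intro h hh
    apply u_eq_one
    · intro h'; apply hh; rw [h']; rfl
    · intro h'; apply hh; rw [h']; rfl
  have hkt : (a.right * b.right⁻¹ * a.right⁻¹).t ≠ 0 := by
    simp [har, hbr, h1]
  refine ⟨?_, ?_⟩
  · rw [hw, mul_right, f5]
  · rw [hw, mul_left, Pi.mul_apply, mul_one, hcinv, hcl, hcl, hal, u_one, htne _ (by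
      simpa using hkt), u_eq_one _ hc1 hcz, htne _ (by
        rw [mul_t, f1, add_zero]; exact hkt)]
    simp

/-- data on the `t`-values used below. -/
structure Good (t : Fin 3 → K) : Prop where
  h1 : t 1 ≠ 0
  h01 : t 0 * t 1 ^ 4 - t 1 * t 0 ^ 4 ≠ 0
  h7 : t 0 ^ 7 = 1
  span : ∀ p : K → Prop, p 0 → (∀ i, p (t i)) → (∀ x y, p x → p y → p (x + y)) → ∀ x, p x

/-- the base point. -/
noncomputable def x₀ (h2 : (2 : K) = 0) (t : Fin 3 → K) (ht : Good t) : X q K h2 :=
  ⟨f₀ h2 t, by
    intro y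
    refine ht.span (fun y => ∃ x, (fun x => ((f₀ h2 t x).1 : W q K).right.t) x = y)
      ⟨1, by simp⟩ ?_ ?_ y
    · intro i
      refine ⟨FreeGroup.of i, ?_⟩
      simp only [f₀_of]
      rfl
    · rintro _ _ ⟨x, rfl⟩ ⟨y, rfl⟩
      exact ⟨x * y, by simp⟩⟩

lemma x₀_facts (h2 : (2 : K) = 0) (t : Fin 3 → K) (ht : Good t) [hq : Fact q.Prime]
    (hq2 : 2 < q) :
    (MulAut.conj wd) ^ q • (x₀ h2 t ht : X q K h2) = x₀ h2 t ht ∧
      MulAut.conj wd • (x₀ h2 t ht : X q K h2) ≠ x₀ h2 t ht := by
  obtain ⟨hr, hl⟩ := wd_facts (q := q) h2 t ht.h1 ht.h01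
  refine ⟨?_, ?_⟩
  · have hpow : (f₀ h2 t wd : (P h2 : Subgroup (W q K))) ^ q = 1 := by
      apply Subtype.ext
      rw [Subgroup.coe_pow, pow_left_of_right_one _ hr]
      apply RegularWreathProduct.ext
      · funext h
        simp only [OneMemClass.coe_one, one_left, Pi.one_apply]
        apply Multiplicative.toAdd.injective
        rw [toAdd_pow, toAdd_one, nsmul_eq_mul, CharP.cast_eq_zero, zero_mul]
      · rfl
    rw [← map_pow]
    apply Subtype.ext
    apply MonoidHom.ext
    intro x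
    rw [smul_val, ← map_inv, MulAut.conj_apply]
    change f₀ h2 t _ = f₀ h2 t _
    have hwq : f₀ h2 t (wd ^ q) = (1 : (P h2 : Subgroup (W q K))) := by rw [map_pow, hpow]
    simp only [map_mul, map_inv, hwq, inv_one, one_mul, mul_one]
  · intro h
    have h1 : ∀ x, (f₀ h2 t wd : (P h2 : Subgroup (W q K)))⁻¹ * f₀ h2 t x * f₀ h2 t wd
        = f₀ h2 t x := by
      intro x
      have := congrArg (fun f : X q K h2 => f.1 x) h
      simp only [smul_val, ← map_inv, MulAut.conj_apply, inv_inv] at this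
      change f₀ h2 t _ = f₀ h2 t _ at this
      simpa using this
    set y : W q K := (f₀ h2 t (FreeGroup.of 0 ^ 4)).1 with hy
    set w : W q K := (f₀ h2 t wd).1 with hw
    have h2' : y * w = w * y := by
      have h3 := congrArg (fun v : (P h2 : Subgroup (W q K)) => (v : W q K))
        (h1 (FreeGroup.of 0 ^ 4))
      simp only [Subgroup.coe_mul, Subgroup.coe_inv] at h3
      rw [mul_assoc, inv_mul_eq_iff_eq_mul] at h3
      exact h3
    have hyr : y.right = z := by
      have h3 : y = gen t 0 ^ 4 := by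
        rw [hy, map_pow, Subgroup.coe_pow, f₀_of]
      have h4 : y.right = (gen t 0 : W q K).right ^ 4 := by
        rw [h3]
        simpa using map_pow (rightHom : W q K →* UG K) (gen t 0) 4
      rw [h4]
      apply pow_four h2
      change t 0 ^ 3 * t 0 ^ 4 = 1
      linear_combination ht.h7
    have h5 := congrArg (fun v : W q K => v.left 1) h2'
    simp only [mul_left, Pi.mul_apply, hyr, hr, inv_one, one_mul] at h5
    have hodd : w.left (z⁻¹ * 1) = (w.left 1)⁻¹ := by
      rw [z_inv h2]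
      exact (f₀ h2 t wd).2.2 1
    rw [hodd, hl, mul_comm, mul_left_inj] at h5
    have h6 := congrArg Multiplicative.toAdd h5
    rw [toAdd_inv, toAdd_ofAdd] at h6
    have h7 : ((2 : ℕ) : ZMod q) = 0 := by
      push_cast
      linear_combination -h6
    rw [ZMod.natCast_eq_zero_iff] at h7
    have := Nat.le_of_dvd (by norm_num) h7
    omega

lemma main_aux (h2 : (2 : K) = 0) (hc : Nat.card K = 8) (t : Fin 3 → K) (ht : Good t) :
    Set.Infinite {N : Subgroup (MulAut (FreeGroup (Fin 3)) ⧸
      Subgroup.normalClosure ({sig ^ 8} : Set (MulAut (FreeGroup (Fin 3))))) |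
      N.Normal ∧ N.FiniteIndex} := by
  apply infinite_of_actions
  intro q hq hq2
  have : Fact q.Prime := ⟨hq⟩
  have hfin : Finite K := Nat.finite_of_card_ne_zero (by omega)
  have : NeZero q := ⟨hq.ne_zero⟩
  refine ⟨Equiv.Perm (X q K h2), inferInstance, inferInstance,
    MulAction.toPermHom (MulAut (FreeGroup (Fin 3))) (X q K h2), ?_, MulAut.conj wd, ?_⟩
  · ext1 f
    exact sig_pow_eight_smul h2 hc f
  · obtain ⟨ha, hb⟩ := x₀_facts (q := q) h2 t ht hq2
    set p := MulAction.toPermHom (MulAut (FreeGroup (Fin 3))) (X q K h2) (MulAut.conj wd) with hp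
    have hper : Function.IsPeriodicPt p q (x₀ h2 t ht : X q K h2) := by
      unfold Function.IsPeriodicPt Function.IsFixedPt
      rw [Equiv.Perm.iterate_eq_pow, hp, ← map_pow]
      exact ha
    have hmin := Function.minimalPeriod_eq_prime hper hb
    refine (dvd_of_eq hmin.symm).trans ?_
    apply Function.IsPeriodicPt.minimalPeriod_dvd
    unfold Function.IsPeriodicPt Function.IsFixedPt
    rw [Equiv.Perm.iterate_eq_pow, pow_orderOf_eq_one]
    rfl

end

lemma exists_good : ∃ t : Fin 3 → GaloisField 2 3, Good t := by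
  have hcard : Nat.card (GaloisField 2 3) = 8 := by rw [GaloisField.card 2 3 (by norm_num)]; norm_num
  have hfr : Module.finrank (ZMod 2) (GaloisField 2 3) = 3 := GaloisField.finrank 2 (by norm_num)
  let b : Module.Basis (Fin 3) (ZMod 2) (GaloisField 2 3) := Module.finBasisOfFinrankEq _ _ hfr
  have : Fintype (GaloisField 2 3) := Fintype.ofFinite _
  have h7 : ∀ x : GaloisField 2 3, x ≠ 0 → x ^ 7 = 1 := by
    intro x hx
    have := FiniteField.pow_card_sub_one_eq_one x hx
    rwa [← Nat.card_eq_fintype_card, hcard] at this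
  refine ⟨b, b.ne_zero 1, ?_, h7 _ (b.ne_zero 0), ?_⟩
  · intro h
    have h0 := b.ne_zero 0
    have h1 := b.ne_zero 1
    have h3 : (b 1) ^ 3 = (b 0) ^ 3 := by
      have : b 0 * b 1 * ((b 1) ^ 3 - (b 0) ^ 3) = 0 := by linear_combination h
      rcases mul_eq_zero.1 this with h' | h'
      · rcases mul_eq_zero.1 h' with h'' | h''
        · exact absurd h'' h0
        · exact absurd h'' h1
      · linear_combination h'
    have h4 : ∀ x : GaloisField 2 3, x ≠ 0 → x = (x ^ 3) ^ 5 := by
      intro x hx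
      have := h7 x hx
      calc x = (x ^ 7) ^ 2 * x := by rw [this]; ring
        _ = _ := by ring
    have h5 : b 1 = b 0 := by rw [h4 _ h1, h4 _ h0, h3]
    exact absurd (b.injective h5) (by decide)
  · intro p p0 pi padd x
    have hx : x ∈ Submodule.span (ZMod 2) (Set.range b) := by
      rw [b.span_eq]; trivial
    induction hx using Submodule.span_induction with
    | mem x hx => obtain ⟨i, rfl⟩ := hx; exact pi i
    | zero => exact p0
    | add x y _ _ hx hy => exact padd x y hx hy
    | smul a x _ hx =>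
      have ha : ∀ a : ZMod 2, a = 0 ∨ a = 1 := by decide
      rcases ha a with rfl | rfl
      · rw [zero_smul]; exact p0
      · rw [one_smul]; exact hx

end V1122.Nielsen
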