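import Mathlib

set_option autoImplicit false

namespace V1122.Nielsen

/-- Upper unitriangular `5 × 5` matrices with superdiagonal `(t,t,t,s)`; the other entries are
`(1,3)=b`, `(2,4)=e`, `(3,5)=g`, `(1,4)=c`, `(2,5)=f`, `(1,5)=d`. -/
@[ext] structure UG (K : Type*) where
  t : K
  s : K
  b : K
  e : K
  g : K
  c : K
  f : K
  d : K

namespace UG

variable {K : Type*}

instance [Finite K] : Finite (UG K) := by
  refine Finite.of_injective
    (fun x : UG K => ((x.t, x.s, x.b, x.e), (x.g, x.c, x.f, x.d))) ?_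
  intro x y h
  simp only [Prod.mk.injEq] at h
  ext <;> simp [h]

variable [CommRing K]

instance : Mul (UG K) := ⟨fun x y =>
  ⟨x.t + y.t, x.s + y.s, x.b + x.t * y.t + y.b, x.e + x.t * y.t + y.e, x.g + x.t * y.s + y.g,
    x.c + x.t * y.e + x.b * y.t + y.c, x.f + x.t * y.g + x.e * y.s + y.f,
    x.d + x.t * y.f + x.b * y.g + x.c * y.s + y.d⟩⟩

instance : One (UG K) := ⟨⟨0, 0, 0, 0, 0, 0, 0, 0⟩⟩

instance : Inv (UG K) := ⟨fun x =>
  ⟨-x.t, -x.s, -x.b + x.t ^ 2, -x.e + x.t ^ 2, -x.g + x.t * x.s,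
    -x.c + x.t * x.e - x.t ^ 3 + x.b * x.t,
    -x.f + x.t * x.g - x.t ^ 2 * x.s + x.e * x.s,
    -x.d + x.t * x.f - x.t ^ 2 * x.g + x.t ^ 3 * x.s - x.t * x.e * x.s + x.b * x.g
      - x.b * x.t * x.s + x.c * x.s⟩⟩

section simps
variable (x y : UG K)
@[simp] lemma mul_t : (x * y).t = x.t + y.t := rfl
@[simp] lemma mul_s : (x * y).s = x.s + y.s := rfl
@[simp] lemma mul_b : (x * y).b = x.b + x.t * y.t + y.b := rfl
@[simp] lemma mul_e : (x * y).e = x.e + x.t * y.t + y.e := rfl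
@[simp] lemma mul_g : (x * y).g = x.g + x.t * y.s + y.g := rfl
@[simp] lemma mul_c : (x * y).c = x.c + x.t * y.e + x.b * y.t + y.c := rfl
@[simp] lemma mul_f : (x * y).f = x.f + x.t * y.g + x.e * y.s + y.f := rfl
@[simp] lemma mul_d : (x * y).d = x.d + x.t * y.f + x.b * y.g + x.c * y.s + y.d := rfl
@[simp] lemma one_t : (1 : UG K).t = 0 := rfl
@[simp] lemma one_s : (1 : UG K).s = 0 := rfl
@[simp] lemma one_b : (1 : UG K).b = 0 := rfl
@[simp] lemma one_e : (1 : UG K).e = 0 := rfl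
@[simp] lemma one_g : (1 : UG K).g = 0 := rfl
@[simp] lemma one_c : (1 : UG K).c = 0 := rfl
@[simp] lemma one_f : (1 : UG K).f = 0 := rfl
@[simp] lemma one_d : (1 : UG K).d = 0 := rfl
@[simp] lemma inv_t : (x⁻¹).t = -x.t := rfl
@[simp] lemma inv_s : (x⁻¹).s = -x.s := rfl
@[simp] lemma inv_b : (x⁻¹).b = -x.b + x.t ^ 2 := rfl
@[simp] lemma inv_e : (x⁻¹).e = -x.e + x.t ^ 2 := rfl
@[simp] lemma inv_g : (x⁻¹).g = -x.g + x.t * x.s := rfl
@[simp] lemma inv_c : (x⁻¹).c = -x.c + x.t * x.e - x.t ^ 3 + x.b * x.t := rfl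
@[simp] lemma inv_f : (x⁻¹).f = -x.f + x.t * x.g - x.t ^ 2 * x.s + x.e * x.s := rfl
@[simp] lemma inv_d : (x⁻¹).d = -x.d + x.t * x.f - x.t ^ 2 * x.g + x.t ^ 3 * x.s
  - x.t * x.e * x.s + x.b * x.g - x.b * x.t * x.s + x.c * x.s := rfl
end simps

instance : Group (UG K) where
  mul_assoc x y z := by ext <;> simp <;> ring
  one_mul x := by ext <;> simp
  mul_one x := by ext <;> simp
  inv_mul_cancel x := by ext <;> simp <;> ring

/-- The central element `1 + E₁₅`. -/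
def z : UG K := ⟨0, 0, 0, 0, 0, 0, 0, 1⟩

@[simp] lemma z_t : (z : UG K).t = 0 := rfl
@[simp] lemma z_s : (z : UG K).s = 0 := rfl
@[simp] lemma z_b : (z : UG K).b = 0 := rfl
@[simp] lemma z_e : (z : UG K).e = 0 := rfl
@[simp] lemma z_g : (z : UG K).g = 0 := rfl
@[simp] lemma z_c : (z : UG K).c = 0 := rfl
@[simp] lemma z_f : (z : UG K).f = 0 := rfl
@[simp] lemma z_d : (z : UG K).d = 1 := rfl

lemma z_comm (x : UG K) : z * x = x * z := by
  ext <;> simp [add_comm]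

/-- The homomorphism `t`. -/
def tHom : UG K →* Multiplicative K where
  toFun x := Multiplicative.ofAdd x.t
  map_one' := rfl
  map_mul' _ _ := rfl

variable (h2 : (2 : K) = 0)
include h2

lemma z_mul_z : (z : UG K) * z = 1 := by
  ext <;> simp
  · linear_combination h2

lemma z_inv : (z : UG K)⁻¹ = z := inv_eq_of_mul_eq_one_left (z_mul_z h2)

lemma sq (x : UG K) : x * x = ⟨0, 0, x.t ^ 2, x.t ^ 2, x.t * x.s, x.t * x.e + x.b * x.t,
    x.t * x.g + x.e * x.s, x.t * x.f + x.b * x.g + x.c * x.s⟩ := by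
  ext
  · simp; linear_combination x.t * h2
  · simp; linear_combination x.s * h2
  · simp; linear_combination x.b * h2
  · simp; linear_combination x.e * h2
  · simp; linear_combination x.g * h2
  · simp; linear_combination x.c * h2
  · simp; linear_combination x.f * h2
  · simp; linear_combination x.d * h2

lemma pow_four (x : UG K) (hx : x.t ^ 3 * x.s = 1) : x ^ 4 = z := by
  have : x ^ 4 = (x * x) * (x * x) := by rw [← pow_two, ← pow_two, ← pow_mul]
  rw [this, sq h2 (x * x), sq h2 x]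
  ext <;> simp
  linear_combination hx

/-- the commutator of two elements with only `t,s`-coordinates. -/
lemma comm_facts (t₁ s₁ t₂ s₂ : K) :
    let x : UG K := ⟨t₁, s₁, 0, 0, 0, 0, 0, 0⟩
    let y : UG K := ⟨t₂, s₂, 0, 0, 0, 0, 0, 0⟩
    let w := x * y * x⁻¹ * y⁻¹
    w.t = 0 ∧ w.s = 0 ∧ w.b = 0 ∧ w.g = t₁ * s₂ - t₂ * s₁ ∧ w * w = 1 := by
  intro x y w
  have ht : w.t = 0 := by simp [w, x, y]
  have hs : w.s = 0 := by simp [w, x, y]
  have hb : w.b = 0 := by simp [w, x, y]; ring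
  refine ⟨ht, hs, hb, by simp [w, x, y]; ring, ?_⟩
  rw [sq h2 w]
  ext <;> simp [ht, hs, hb]

end UG

end V1122.Nielsen
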